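import Mathlib

set_option autoImplicit false

/-! A dyadic system of equidecomposable cells on a conull invariant set (job CR-HOPF1). -/

namespace Pool.Agent.TH286.CR

open Set MeasureTheory

namespace Hopf1

variable {X : Type} [MeasurableSpace X] [StandardBorelSpace X]

/-- a measurable inverse, inside the relation, of an injection inside the relation -/
theorem exists_inverse (s : ℕ → X → X) (hs : ∀ n, Measurable (s n)) (E : X → X → Prop)
    (hE : Equivalence E) (hsE : ∀ x y, E x y ↔ ∃ n, s n x = y) (D : Set X) (hD : MeasurableSet D)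
    (f : X → X) (hf : Measurable f) (hfE : ∀ x, E x (f x)) (hfi : InjOn f D) :
    ∃ r : X → X, Measurable r ∧ (∀ x, E x (r x)) ∧ (∀ y ∈ D, r (f y) = y) := by
  classical
  let p : ℕ → X → Prop := fun k x => (s k x ∈ D ∧ f (s k x) = x) ∨
    (s k x = x ∧ ∀ l, ¬ (s l x ∈ D ∧ f (s l x) = x))
  have hpm1 : ∀ k, MeasurableSet {x | s k x ∈ D ∧ f (s k x) = x} := by
    intro k
    exact ((hs k) hD).inter (measurableSet_eq_fun (hf.comp (hs k)) measurable_id)
  have hpm : ∀ k, MeasurableSet {x | p k x} := by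
    intro k
    have : {x | p k x} = {x | s k x ∈ D ∧ f (s k x) = x} ∪
        ({x | s k x = x} ∩ ⋂ l, {x | s l x ∈ D ∧ f (s l x) = x}ᶜ) := by
      ext x
      simp only [p, mem_union, mem_inter_iff, mem_iInter, mem_compl_iff, Set.mem_ofPred_eq]
    rw [this]
    refine (hpm1 k).union ((measurableSet_eq_fun (hs k) measurable_id).inter
      (MeasurableSet.iInter fun l => (hpm1 l).compl))
  have hex : ∀ x, ∃ k, p k x := by
    intro x
    by_cases h : ∃ l, s l x ∈ D ∧ f (s l x) = x
    · obtain ⟨l, hl⟩ := h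
      exact ⟨l, Or.inl hl⟩
    · push Not at h
      obtain ⟨k, hk⟩ := (hsE x x).1 (hE.refl x)
      exact ⟨k, Or.inr ⟨hk, fun l hl => h l hl.1 hl.2⟩⟩
  refine ⟨fun x => s (Nat.find (hex x)) x, Measurable.find hs hpm hex, ?_, ?_⟩
  · intro x
    exact (hsE _ _).2 ⟨_, rfl⟩
  · intro y hy
    obtain ⟨l, hl⟩ := (hsE (f y) y).1 (hE.symm (hfE y))
    rcases Nat.find_spec (hex (f y)) with h | h
    · exact hfi h.1 hy h.2
    · exact absurd ⟨hl.symm ▸ hy, by rw [hl]⟩ (h.2 l)

end Hopf1

open Hopf1

/-- JOB HOPF1: a dyadic system of equidecomposable cells on a conull invariant set. -/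
theorem hopf_dyadic {X : Type} [MeasurableSpace X] [StandardBorelSpace X] (s : ℕ → X → X)
    (hs : ∀ n, Measurable (s n)) (hinv : ∀ n x, s n (s n x) = x) (E : X → X → Prop)
    (hE : Equivalence E) (hsE : ∀ x y, E x y ↔ ∃ n, s n x = y)
    (μ : Measure X) [IsProbabilityMeasure μ]
    (hqi : ∀ n V, MeasurableSet V → μ V = 0 → μ (s n ⁻¹' V) = 0)
    -- the conclusion of job HALVE:
    (hhalve : ∀ C : Set X, MeasurableSet C →
      ∃ (D : Set X) (f : X → X), MeasurableSet D ∧ D ⊆ C ∧ Measurable f ∧ (∀ x, E x (f x)) ∧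
      InjOn f D ∧ MapsTo f D C ∧ Disjoint D (f '' D) ∧ μ (C \ (D ∪ f '' D)) = 0) :
    ∃ (X' : Set X) (d : X → (ℕ → Bool)), MeasurableSet X' ∧ μ X'ᶜ = 0 ∧
      (∀ x y, E x y → x ∈ X' → y ∈ X') ∧ Measurable d ∧
      ∀ (n : ℕ) (u v : ℕ → Bool), ∃ f : X → X, Measurable f ∧ (∀ x, E x (f x)) ∧
        BijOn f {x | x ∈ X' ∧ ∀ i, i < n → d x i = u i}
          {x | x ∈ X' ∧ ∀ i, i < n → d x i = v i} := by
  classical
  choose HD Hf hDm hDC hfm hfE hfi hfC hdis hnull using hhalve
  let BB : ℕ → {C : Set X // MeasurableSet C} := fun n =>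
    Nat.rec ⟨univ, MeasurableSet.univ⟩ (fun _ C => ⟨HD C.1 C.2, hDm C.1 C.2⟩) n
  let B : ℕ → Set X := fun n => (BB n).1
  have hB0 : B 0 = univ := rfl
  have hBm : ∀ n, MeasurableSet (B n) := fun n => (BB n).2
  let f : ℕ → X → X := fun n => Hf (BB n).1 (BB n).2
  have hf1 : ∀ n, Measurable (f n) := fun n => hfm _ _
  have hf2 : ∀ n x, E x (f n x) := fun n => hfE _ _
  have hf3 : ∀ n, InjOn (f n) (B (n + 1)) := fun n => hfi _ _
  have hf4 : ∀ n, MapsTo (f n) (B (n + 1)) (B n) := fun n => hfC _ _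
  have hf5 : ∀ n, Disjoint (B (n + 1)) (f n '' B (n + 1)) := fun n => hdis _ _
  have hf6 : ∀ n, μ (B n \ (B (n + 1) ∪ f n '' B (n + 1))) = 0 := fun n => hnull _ _
  have hf7 : ∀ n, B (n + 1) ⊆ B n := fun n => hDC _ _
  choose r hr1 hr2 hr3 using fun n => exists_inverse s hs E hE hsE (B (n + 1)) (hBm (n + 1))
    (f n) (hf1 n) (hf2 n) (hf3 n)
  have himg : ∀ n, MeasurableSet (f n '' B (n + 1)) := by
    intro n
    exact (hBm (n + 1)).image_of_measurable_injOn (hf1 n) (hf3 n)
  -- the null set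
  let Nn : Set X := ⋃ n, B n \ (B (n + 1) ∪ f n '' B (n + 1))
  have hNm : MeasurableSet Nn :=
    MeasurableSet.iUnion fun n => (hBm n).diff ((hBm (n + 1)).union (himg n))
  have hN0 : μ Nn = 0 := measure_iUnion_null hf6
  let X' : Set X := (⋃ m, s m ⁻¹' Nn)ᶜ
  have hX'E : ∀ x y, E x y → x ∈ X' → y ∈ X' := by
    intro x y hxy hx hy
    apply hx
    obtain ⟨m, hm⟩ := mem_iUnion.1 hy
    obtain ⟨m', hm'⟩ := (hsE x (s m y)).1 (hE.trans hxy ((hsE _ _).2 ⟨m, rfl⟩))
    exact mem_iUnion.2 ⟨m', by rw [mem_preimage, hm']; exact hm⟩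
  have hX'N : ∀ x ∈ X', x ∉ Nn := by
    intro x hx hxN
    apply hx
    obtain ⟨m, hm⟩ := (hsE x x).1 (hE.refl x)
    exact mem_iUnion.2 ⟨m, by rw [mem_preimage, hm]; exact hxN⟩
  have hdec : ∀ n, ∀ x ∈ X', x ∈ B n → x ∈ B (n + 1) ∨ x ∈ f n '' B (n + 1) := by
    intro n x hx hxB
    by_contra hcon
    exact hX'N x hx (mem_iUnion.2 ⟨n, hxB, hcon⟩)
  -- the step maps
  let τ : ℕ → X → X := fun n x => if x ∈ B (n + 1) then x else r n x
  have hτm : ∀ n, Measurable (τ n) := fun n => Measurable.ite (hBm (n + 1)) measurable_id (hr1 n)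
  have hτE : ∀ n x, E x (τ n x) := by
    intro n x
    by_cases h : x ∈ B (n + 1)
    · simp only [τ, if_pos h]
      exact hE.refl x
    · simp only [τ, if_neg h]
      exact hr2 n x
  let π : ℕ → X → X := fun n => Nat.rec id (fun n g x => τ n (g x)) n
  have hπ0 : ∀ x, π 0 x = x := fun x => rfl
  have hπs : ∀ n x, π (n + 1) x = τ n (π n x) := fun n x => rfl
  have hπm : ∀ n, Measurable (π n) := by
    intro n
    induction n with
    | zero => exact measurable_id
    | succ n ih => exact (hτm n).comp ih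
  have hπE : ∀ n x, E x (π n x) := by
    intro n x
    induction n with
    | zero => exact hE.refl x
    | succ n ih => exact hE.trans ih (hτE n _)
  have hπB : ∀ n, ∀ x ∈ X', π n x ∈ B n := by
    intro n x hx
    induction n with
    | zero => rw [hB0]; trivial
    | succ n ih =>
      rw [hπs]
      have hx' := hX'E x _ (hπE n x) hx
      by_cases h : π n x ∈ B (n + 1)
      · simp only [τ, if_pos h]
        exact h
      · simp only [τ, if_neg h]
        obtain ⟨y, hy, hyx⟩ := (hdec n _ hx' ih).resolve_left h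
        rw [← hyx, hr3 n y hy]
        exact hy
  let d : X → (ℕ → Bool) := fun x n => if π n x ∈ B (n + 1) then false else true
  have hd1 : ∀ x n, π n x ∈ B (n + 1) → d x n = false := fun x n h => if_pos h
  have hd2 : ∀ x n, π n x ∉ B (n + 1) → d x n = true := fun x n h => if_neg h
  -- the inverse maps
  let γ : (ℕ → Bool) → ℕ → X → X := fun u n =>
    Nat.rec id (fun n g y => g (if u n = true then f n y else y)) n
  have hγ0 : ∀ u y, γ u 0 y = y := fun u y => rfl
  have hγs : ∀ u n y, γ u (n + 1) y = γ u n (if u n = true then f n y else y) :=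
    fun u n y => rfl
  have hγm : ∀ u n, Measurable (γ u n) := by
    intro u n
    induction n with
    | zero => exact measurable_id
    | succ n ih =>
      have h1 : γ u (n + 1) = fun y => γ u n (if u n = true then f n y else y) := by
        funext y; exact hγs u n y
      rw [h1]
      refine ih.comp ?_
      by_cases h : u n = true
      · simp only [if_pos h]
        exact hf1 n
      · simp only [if_neg h]
        exact measurable_id
  have hγE : ∀ u n y, E y (γ u n y) := by
    intro u n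
    induction n with
    | zero => intro y; exact hE.refl y
    | succ n ih =>
      intro y
      rw [hγs]
      by_cases h : u n = true
      · rw [if_pos h]
        exact hE.trans (hf2 n y) (ih _)
      · rw [if_neg h]
        exact ih y
  have hγπ : ∀ (u : ℕ → Bool) n, ∀ x ∈ X', (∀ i, i < n → d x i = u i) →
      γ u n (π n x) = x := by
    intro u n x hx
    induction n with
    | zero => intro _; rfl
    | succ n ih =>
      intro hd
      have hx' := hX'E x _ (hπE n x) hx
      rw [hγs, hπs]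
      have hn := hd n (Nat.lt_succ_self n)
      by_cases h : π n x ∈ B (n + 1)
      · rw [hd1 x n h] at hn
        simp only [τ, if_pos h]
        rw [← hn, if_neg (by simp)]
        exact ih fun i hi => hd i (by omega)
      · rw [hd2 x n h] at hn
        simp only [τ, if_neg h]
        rw [← hn, if_pos rfl]
        obtain ⟨y, hy, hyx⟩ := (hdec n _ hx' (hπB n x hx)).resolve_left h
        have h2 : f n (r n (π n x)) = π n x := by
          rw [← hyx, hr3 n y hy]
        rw [h2]
        exact ih fun i hi => hd i (by omega)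
  have hπγ : ∀ (u : ℕ → Bool) n, ∀ y ∈ X', y ∈ B n →
      (∀ i, i < n → d (γ u n y) i = u i) ∧ π n (γ u n y) = y := by
    intro u n
    induction n with
    | zero =>
      intro y _ _
      exact ⟨fun i hi => absurd hi (Nat.not_lt_zero i), rfl⟩
    | succ n ih =>
      intro y hy hyB
      rw [hγs]
      by_cases h : u n = true
      · rw [if_pos h]
        have hfy : f n y ∉ B (n + 1) := fun hcon =>
          Set.disjoint_left.1 (hf5 n) hcon ⟨y, hyB, rfl⟩
        obtain ⟨h1, h2⟩ := ih (f n y) (hX'E _ _ (hf2 n y) hy) (hf4 n hyB)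
        have h3 : π n (γ u n (f n y)) ∉ B (n + 1) := by rw [h2]; exact hfy
        refine ⟨fun i hi => ?_, ?_⟩
        · rcases Nat.lt_succ_iff_lt_or_eq.1 hi with hi | rfl
          · exact h1 i hi
          · rw [hd2 _ _ h3, h]
        · rw [hπs]
          simp only [τ, if_neg h3]
          rw [h2, hr3 n y hyB]
      · rw [if_neg h]
        obtain ⟨h1, h2⟩ := ih y hy (hf7 n hyB)
        have h3 : π n (γ u n y) ∈ B (n + 1) := by rw [h2]; exact hyB
        refine ⟨fun i hi => ?_, ?_⟩
        · rcases Nat.lt_succ_iff_lt_or_eq.1 hi with hi | rfl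
          · exact h1 i hi
          · rw [hd1 _ _ h3]
            simpa using h
        · rw [hπs]
          simp only [τ, if_pos h3]
          exact h2
  refine ⟨X', d, ?_, ?_, hX'E, ?_, ?_⟩
  · exact (MeasurableSet.iUnion fun m => hs m hNm).compl
  · have : X'ᶜ = ⋃ m, s m ⁻¹' Nn := compl_compl _
    rw [this]
    exact measure_iUnion_null fun m => hqi m Nn hNm hN0
  · rw [measurable_pi_iff]
    intro n
    exact Measurable.ite (hπm n (hBm (n + 1))) measurable_const measurable_const
  · intro n u v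
    refine ⟨fun x => γ v n (π n x), (hγm v n).comp (hπm n),
      fun x => hE.trans (hπE n x) (hγE v n _), ?_, ?_, ?_⟩
    · rintro x ⟨hx, hxu⟩
      have hx' := hX'E x _ (hπE n x) hx
      exact ⟨hX'E _ _ (hγE v n _) hx', (hπγ v n _ hx' (hπB n x hx)).1⟩
    · rintro x ⟨hx, hxu⟩ y ⟨hy, hyu⟩ hxy
      have hx' := hX'E x _ (hπE n x) hx
      have hy' := hX'E y _ (hπE n y) hy
      have h1 := congrArg (π n) hxy
      simp only at h1
      rw [(hπγ v n _ hx' (hπB n x hx)).2, (hπγ v n _ hy' (hπB n y hy)).2] at h1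
      rw [← hγπ u n x hx hxu, ← hγπ u n y hy hyu, h1]
    · rintro y ⟨hy, hyv⟩
      have hy' := hX'E y _ (hπE n y) hy
      obtain ⟨h1, h2⟩ := hπγ u n _ hy' (hπB n y hy)
      refine ⟨γ u n (π n y), ⟨hX'E _ _ (hγE u n _) hy', h1⟩, ?_⟩
      show γ v n (π n (γ u n (π n y))) = y
      rw [h2]
      exact hγπ v n y hy hyv

end Pool.Agent.TH286.CR
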