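import Mathlib
import Pool.Agent.H139R3.MF.Top

set_option autoImplicit false

/-! Glimm-Effros for countable relations given by Borel involutions (job CR-GE). -/

namespace Pool.Agent.TH286.CR

open Set MeasureTheory Filter Topology

namespace GEaux

section smooth

variable {X : Type} [TopologicalSpace X] [T2Space X] [SecondCountableTopology X]
  [MeasurableSpace X] [BorelSpace X]

/-- a countable equivalence relation all of whose classes are discrete in a second countable
topology has a Borel selector -/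
theorem exists_selector (s : ℕ → X → X) (hs : ∀ n, Measurable (s n)) (E : X → X → Prop)
    (hE : Equivalence E) (hsE : ∀ x y, E x y ↔ ∃ n, s n x = y)
    (hdisc : ∀ x : X, ∃ O : Set X, IsOpen O ∧ x ∈ O ∧ ∀ k, s k x ∈ O → s k x = x) :
    ∃ g : X → X, Measurable g ∧ (∀ x, E x (g x)) ∧ ∀ x y, E x y → g x = g y := by
  classical
  obtain ⟨b, hb1, hb0, hb2⟩ := TopologicalSpace.exists_countable_basis X
  by_cases hne : b.Nonempty
  swap
  · rw [Set.not_nonempty_iff_eq_empty] at hne
    refine ⟨id, measurable_id, fun x => hE.refl x, fun x y _ => ?_⟩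
    exfalso
    obtain ⟨O, hO, hxO, -⟩ := hdisc x
    obtain ⟨u, hu, -, -⟩ := hb2.exists_subset_of_mem_open hxO hO
    rw [hne] at hu
    exact hu
  obtain ⟨U, hU⟩ := hb1.exists_eq_range hne
  have hUo : ∀ n, IsOpen (U n) := fun n => hb2.isOpen (hU ▸ ⟨n, rfl⟩)
  have hUb : ∀ x O, IsOpen O → x ∈ O → ∃ n, x ∈ U n ∧ U n ⊆ O := by
    intro x O hO hx
    obtain ⟨u, hu, hxu, huO⟩ := hb2.exists_subset_of_mem_open hx hO
    rw [hU] at hu
    obtain ⟨n, rfl⟩ := hu
    exact ⟨n, hxu, huO⟩
  let A : ℕ → Set X := fun n => {x | x ∈ U n ∧ ∀ k, s k x ∈ U n → s k x = x}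
  have hA : ∀ n, MeasurableSet (A n) := by
    intro n
    have h1 : A n = U n ∩ ⋂ k, ((s k ⁻¹' U n)ᶜ ∪ {x | s k x = x}) := by
      ext x
      simp only [A, mem_inter_iff, mem_iInter, mem_union, mem_compl_iff, mem_preimage,
        Set.mem_ofPred_eq]
      refine and_congr_right fun _ => forall_congr' fun k => ?_
      tauto
    rw [h1]
    refine (hUo n).measurableSet.inter (MeasurableSet.iInter fun k => ?_)
    exact ((hs k) (hUo n).measurableSet).compl.union (measurableSet_eq_fun (hs k) measurable_id)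
  have hAuniq : ∀ n x y, E x y → x ∈ A n → y ∈ A n → x = y := by
    intro n x y hxy hx hy
    obtain ⟨k, hk⟩ := (hsE x y).1 hxy
    have h1 := hx.2 k (hk ▸ hy.1)
    rw [← hk, h1]
  have hAcov : ∀ x, ∃ n, x ∈ A n := by
    intro x
    obtain ⟨O, hO, hxO, h⟩ := hdisc x
    obtain ⟨n, hxn, hn⟩ := hUb x O hO hxO
    exact ⟨n, hxn, fun k hk => h k (hn hk)⟩
  -- candidates
  let q : ℕ → X → Prop := fun n x => ∃ k, s k x ∈ A n
  have hqm : ∀ n, MeasurableSet {x | q n x} := by
    intro n
    have : {x | q n x} = ⋃ k, s k ⁻¹' A n := by ext x; simp [q]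
    rw [this]
    exact MeasurableSet.iUnion fun k => hs k (hA n)
  have hqE : ∀ n x y, E x y → q n x → q n y := by
    intro n x y hxy ⟨k, hk⟩
    obtain ⟨l, hl⟩ := (hsE y (s k x)).1 (hE.trans (hE.symm hxy) ((hsE x _).2 ⟨k, rfl⟩))
    exact ⟨l, hl ▸ hk⟩
  let p : ℕ → X → Prop := fun m x => s m.unpair.2 x ∈ A m.unpair.1 ∧ ∀ n < m.unpair.1, ¬ q n x
  have hpm : ∀ m, MeasurableSet {x | p m x} := by
    intro m
    have : {x | p m x} = s m.unpair.2 ⁻¹' A m.unpair.1 ∩ ⋂ n, ⋂ (_ : n < m.unpair.1),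
        {x | q n x}ᶜ := by
      ext x
      simp only [p, mem_inter_iff, mem_iInter, mem_compl_iff, Set.mem_ofPred_eq, mem_preimage]
    rw [this]
    refine (hs _ (hA _)).inter (MeasurableSet.iInter fun n => MeasurableSet.iInter fun _ => ?_)
    exact (hqm n).compl
  have hpex : ∀ x, ∃ m, p m x := by
    intro x
    have h1 : ∃ n, q n x := by
      obtain ⟨n, hn⟩ := hAcov x
      obtain ⟨k, hk⟩ := (hsE x x).1 (hE.refl x)
      exact ⟨n, k, hk.symm ▸ hn⟩
    obtain ⟨k, hk⟩ := Nat.find_spec h1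
    refine ⟨Nat.pair (Nat.find h1) k, ?_, ?_⟩
    · simpa only [Nat.unpair_pair] using hk
    · intro n hn
      simp only [Nat.unpair_pair] at hn
      exact Nat.find_min h1 hn
  refine ⟨fun x => s (Nat.find (hpex x)).unpair.2 x, ?_, ?_, ?_⟩
  · exact Measurable.find (f := fun m x => s m.unpair.2 x) (fun m => hs _) hpm hpex
  · intro x
    exact (hsE _ _).2 ⟨_, rfl⟩
  · intro x y hxy
    have hx := Nat.find_spec (hpex x)
    have hy := Nat.find_spec (hpex y)
    set m := Nat.find (hpex x)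
    set m' := Nat.find (hpex y)
    have hEx : E x (s m.unpair.2 x) := (hsE _ _).2 ⟨_, rfl⟩
    have hEy : E y (s m'.unpair.2 y) := (hsE _ _).2 ⟨_, rfl⟩
    have h1 : m.unpair.1 = m'.unpair.1 := by
      rcases lt_trichotomy m.unpair.1 m'.unpair.1 with h | h | h
      · exact absurd (hqE _ _ _ hxy ⟨_, hx.1⟩) (hy.2 _ h)
      · exact h
      · exact absurd (hqE _ _ _ (hE.symm hxy) ⟨_, hy.1⟩) (hx.2 _ h)
    refine hAuniq m.unpair.1 _ _ (hE.trans (hE.symm hEx) (hE.trans hxy hEy)) hx.1 ?_
    rw [h1]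
    exact hy.1

end smooth

section scheme

variable {X : Type} [MetricSpace X] (E : X → X → Prop) (x0 : X)

/-- state of the construction -/
structure St where
  G : Set (X ≃ₜ X)
  fin : G.Finite
  inside : ∀ g ∈ G, ∀ x, E x (g x)
  C : Set X
  nh : C ∈ 𝓝 x0
  cl : IsClosed C

variable {E x0}

theorem exists_step (hE : Equivalence E) (s : ℕ → X → X) (hs : ∀ n, Continuous (s n))
    (hinv : ∀ n x, s n (s n x) = x) (hsE : ∀ x y, E x y ↔ ∃ n, s n x = y)
    (hrec : ∀ O : Set X, IsOpen O → x0 ∈ O → ∃ k, s k x0 ∈ O ∧ s k x0 ≠ x0)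
    (n : ℕ) (S : St E x0) (ε : ℝ) (hε : 0 < ε) :
    ∃ h : X ≃ₜ X, (∀ x, E x (h x)) ∧ ∃ C' : Set X, C' ∈ 𝓝 x0 ∧ IsClosed C' ∧ C' ⊆ S.C ∧
      (∀ x ∈ C', h x ∈ S.C) ∧
      (∀ g ∈ S.G, ∀ x ∈ C', ∀ y ∈ C', dist (g x) (g y) ≤ ε ∧ dist (g (h x)) (g (h y)) ≤ ε) ∧
      (∀ g ∈ S.G, ∀ g' ∈ S.G, ∀ i ≤ n, ∀ x ∈ C', ∀ y ∈ C', s i (g x) ≠ g' (h y)) := by
  classical
  -- the orbit is infinite near x0
  have hinf : ∀ F : Set X, F.Finite → ∃ k, s k x0 ∈ interior S.C ∧ s k x0 ∉ F := by
    intro F hF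
    have hO : IsOpen (interior S.C \ (F \ {x0})) :=
      isOpen_interior.sdiff (hF.subset sdiff_subset).isClosed
    obtain ⟨k, hk1, hk2⟩ := hrec _ hO ⟨mem_interior_iff_mem_nhds.2 S.nh, fun h => h.2 rfl⟩
    refine ⟨k, hk1.1, fun hkF => hk1.2 ⟨hkF, hk2⟩⟩
  have hFfin : {y | ∃ g ∈ S.G, ∃ g' ∈ S.G, ∃ i ≤ n, s i (g x0) = g' y}.Finite := by
    have h1 : {y | ∃ g ∈ S.G, ∃ g' ∈ S.G, ∃ i ≤ n, s i (g x0) = g' y} ⊆
        (fun t : (X ≃ₜ X) × (X ≃ₜ X) × ℕ => t.2.1.symm (s t.2.2 (t.1 x0))) ''
          (S.G ×ˢ (S.G ×ˢ (Set.Iic n))) := by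
      rintro y ⟨g, hg, g', hg', i, hi, h⟩
      refine ⟨(g, g', i), ⟨hg, hg', hi⟩, ?_⟩
      show g'.symm (s i (g x0)) = y
      rw [h, Homeomorph.symm_apply_apply]
    exact ((S.fin.prod (S.fin.prod (Set.finite_Iic n))).image _).subset h1
  obtain ⟨k, hkC, hkF⟩ := hinf _ hFfin
  let h : X ≃ₜ X :=
    { toFun := s k
      invFun := s k
      left_inv := hinv k
      right_inv := hinv k
      continuous_toFun := hs k
      continuous_invFun := hs k }
  have hh : ∀ x, h x = s k x := fun x => rfl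
  have hE1 : ∀ x, E x (h x) := fun x => (hsE _ _).2 ⟨k, rfl⟩
  -- conditions
  have c1 : ∀ᶠ x in 𝓝 x0, x ∈ S.C := S.nh
  have c2 : ∀ᶠ x in 𝓝 x0, h x ∈ S.C := by
    have : S.C ∈ 𝓝 (h x0) := mem_interior_iff_mem_nhds.1 hkC
    exact h.continuous.continuousAt this
  have c3 : ∀ᶠ x in 𝓝 x0, ∀ g ∈ S.G, dist (g x) (g x0) ≤ ε / 2 ∧
      dist (g (h x)) (g (h x0)) ≤ ε / 2 := by
    rw [Filter.eventually_all_finite S.fin]
    intro g _
    have d1 : ∀ᶠ x in 𝓝 x0, dist (g x) (g x0) < ε / 2 :=
      (g.continuous.continuousAt (x := x0)).eventually (Metric.ball_mem_nhds _ (half_pos hε))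
    have d2 : ∀ᶠ x in 𝓝 x0, dist (g (h x)) (g (h x0)) < ε / 2 :=
      ((g.continuous.comp h.continuous).continuousAt (x := x0)).eventually
        (Metric.ball_mem_nhds _ (half_pos hε))
    filter_upwards [d1, d2] with x h1 h2
    exact ⟨h1.le, h2.le⟩
  have c4 : ∀ᶠ p in 𝓝 x0 ×ˢ 𝓝 x0, ∀ g ∈ S.G, ∀ g' ∈ S.G, ∀ i ∈ Set.Iic n,
      s i (g p.1) ≠ g' (h p.2) := by
    rw [Filter.eventually_all_finite S.fin]
    intro g hg
    rw [Filter.eventually_all_finite S.fin]
    intro g' hg'
    rw [Filter.eventually_all_finite (Set.finite_Iic n)]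
    intro i hi
    rw [← nhds_prod_eq]
    have hne : s i (g x0) ≠ g' (h x0) := fun heq => hkF ⟨g, hg, g', hg', i, hi, heq⟩
    have hop : IsOpen {p : X × X | s i (g p.1) ≠ g' (h p.2)} := by
      apply isOpen_ne_fun
      · exact (hs i).comp (g.continuous.comp continuous_fst)
      · exact g'.continuous.comp (h.continuous.comp continuous_snd)
    exact hop.mem_nhds hne
  obtain ⟨W, hW, hWW⟩ := Filter.mem_prod_same_iff.1 c4
  obtain ⟨C', hC', hC'cl, hC'sub⟩ := exists_mem_nhds_isClosed_subset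
    (Filter.inter_mem (Filter.inter_mem (Filter.inter_mem c1 c2) c3) hW)
  refine ⟨h, hE1, C', hC', hC'cl, fun x hx => (hC'sub hx).1.1.1, fun x hx => (hC'sub hx).1.1.2,
    ?_, ?_⟩
  · intro g hg x hx y hy
    have h1 := (hC'sub hx).1.2 g hg
    have h2 := (hC'sub hy).1.2 g hg
    constructor
    · calc dist (g x) (g y) ≤ dist (g x) (g x0) + dist (g y) (g x0) := dist_triangle_right _ _ _
        _ ≤ ε / 2 + ε / 2 := add_le_add h1.1 h2.1
        _ = ε := add_halves ε
    · calc dist (g (h x)) (g (h y)) ≤ dist (g (h x)) (g (h x0)) + dist (g (h y)) (g (h x0)) :=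
          dist_triangle_right _ _ _
        _ ≤ ε / 2 + ε / 2 := add_le_add h1.2 h2.2
        _ = ε := add_halves ε
  · intro g hg g' hg' i hi x hx y hy
    exact hWW (Set.mk_mem_prod (hC'sub hx).2 (hC'sub hy).2) g hg g' hg' i hi

theorem exists_embedding [CompleteSpace X] [MeasurableSpace X] [BorelSpace X]
    (hE : Equivalence E) (s : ℕ → X → X) (hs : ∀ n, Continuous (s n)) (hs0 : ∀ x, s 0 x = x)
    (hinv : ∀ n x, s n (s n x) = x) (hsE : ∀ x y, E x y ↔ ∃ n, s n x = y)
    (hrec : ∀ O : Set X, IsOpen O → x0 ∈ O → ∃ k, s k x0 ∈ O ∧ s k x0 ≠ x0) :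
    ∃ j : (ℕ → Bool) → X, Measurable j ∧ Function.Injective j ∧
      ∀ a b, E (j a) (j b) ↔ ∃ N, ∀ n, N ≤ n → a n = b n := by
  classical
  choose H hH1 C' hC1 hC2 hC3 hC4 hC5 hC6 using fun (n : ℕ) (S : St E x0) =>
    exists_step hE s hs hinv hsE hrec n S ((1 / 2) ^ n) (by positivity)
  let nxt : ℕ → St E x0 → St E x0 := fun n S =>
    { G := S.G ∪ (fun g => (H n S).trans g) '' S.G
      fin := S.fin.union (S.fin.image _)
      inside := by
        rintro g (hg | ⟨g, hg, rfl⟩) x
        · exact S.inside g hg x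
        · exact hE.trans (hH1 n S x) (S.inside g hg _)
      C := C' n S
      nh := hC1 n S
      cl := hC2 n S }
  let S0 : St E x0 :=
    { G := {Homeomorph.refl X}
      fin := Set.finite_singleton _
      inside := by
        rintro g rfl x
        exact hE.refl x
      C := univ
      nh := univ_mem
      cl := isClosed_univ }
  let S : ℕ → St E x0 := fun n => Nat.rec S0 (fun n S => nxt n S) n
  have hS : ∀ n, S (n + 1) = nxt n (S n) := fun n => rfl
  let h : ℕ → (X ≃ₜ X) := fun n => H n (S n)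
  let C : ℕ → Set X := fun n => (S n).C
  have hCn : ∀ n, C n ∈ 𝓝 x0 := fun n => (S n).nh
  have hCcl : ∀ n, IsClosed (C n) := fun n => (S n).cl
  have hCs : ∀ n, C (n + 1) ⊆ C n := fun n => hC3 n (S n)
  have hhC : ∀ n, ∀ x ∈ C (n + 1), h n x ∈ C n := fun n => hC4 n (S n)
  have hhE : ∀ n x, E x (h n x) := fun n => hH1 n (S n)
  have hdist : ∀ n, ∀ g ∈ (S n).G, ∀ x ∈ C (n + 1), ∀ y ∈ C (n + 1),
      dist (g x) (g y) ≤ (1 / 2) ^ n ∧ dist (g (h n x)) (g (h n y)) ≤ (1 / 2) ^ n :=
    fun n => hC5 n (S n)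
  have hsep : ∀ n, ∀ g ∈ (S n).G, ∀ g' ∈ (S n).G, ∀ i ≤ n, ∀ x ∈ C (n + 1), ∀ y ∈ C (n + 1),
      s i (g x) ≠ g' (h n y) := fun n => hC6 n (S n)
  -- the group elements attached to words
  let G : (ℕ → Bool) → ℕ → (X ≃ₜ X) := fun a n =>
    Nat.rec (Homeomorph.refl X) (fun n g => if a n then (h n).trans g else g) n
  have hG0 : ∀ a, G a 0 = Homeomorph.refl X := fun a => rfl
  have hGs : ∀ a n, G a (n + 1) = if a n then (h n).trans (G a n) else G a n := fun a n => rfl
  have hGmem : ∀ a n, G a n ∈ (S n).G := by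
    intro a n
    induction n with
    | zero => exact Set.mem_singleton _
    | succ n ih =>
      rw [hGs, hS]
      by_cases ha : a n = true
      · rw [if_pos ha]
        exact Or.inr ⟨_, ih, rfl⟩
      · rw [if_neg ha]
        exact Or.inl ih
  have hGE : ∀ a n x, E x (G a n x) := fun a n => (S n).inside _ (hGmem a n)
  -- nestedness
  have hnest : ∀ a n x, x ∈ C (n + 1) → G a (n + 1) x ∈ G a n '' C n := by
    intro a n x hx
    rw [hGs]
    by_cases ha : a n = true
    · rw [if_pos ha]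
      exact ⟨h n x, hhC n x hx, rfl⟩
    · rw [if_neg ha]
      exact ⟨x, hCs n hx, rfl⟩
  have hnest' : ∀ a n, G a (n + 1) '' C (n + 1) ⊆ G a n '' C n := by
    rintro a n _ ⟨x, hx, rfl⟩
    exact hnest a n x hx
  have hanti : ∀ a, Antitone fun n => G a n '' C n := fun a => antitone_nat_of_succ_le (hnest' a)
  have hx0C : ∀ n, x0 ∈ C n := fun n => mem_of_mem_nhds (hCn n)
  have hmem : ∀ a n m, n ≤ m → G a m x0 ∈ G a n '' C n := fun a n m hnm =>
    hanti a hnm ⟨x0, hx0C m, rfl⟩
  have hdiam : ∀ a n, ∀ y ∈ G a (n + 1) '' C (n + 1), ∀ y' ∈ G a (n + 1) '' C (n + 1),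
      dist y y' ≤ (1 / 2) ^ n := by
    rintro a n _ ⟨x, hx, rfl⟩ _ ⟨x', hx', rfl⟩
    have h1 := hdist n (G a n) (hGmem a n) x hx x' hx'
    rw [hGs]
    by_cases ha : a n = true
    · rw [if_pos ha]
      exact h1.2
    · rw [if_neg ha]
      exact h1.1
  have hlim : ∀ a, ∃ y, Tendsto (fun n => G a n x0) atTop (𝓝 y) := by
    intro a
    apply cauchySeq_tendsto_of_complete
    rw [Metric.cauchySeq_iff']
    intro ε hε
    obtain ⟨n, hn⟩ := exists_pow_lt_of_lt_one hε (by norm_num : (1 / 2 : ℝ) < 1)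
    refine ⟨n + 1, fun m hm => ?_⟩
    exact (hdiam a n _ (hmem a (n + 1) m hm) _ (hmem a (n + 1) (n + 1) le_rfl)).trans_lt hn
  choose j hj using hlim
  have hjmem : ∀ a n, j a ∈ G a n '' C n := by
    intro a n
    have hcl : IsClosed (G a n '' C n) := (G a n).isClosed_image.2 (hCcl n)
    refine hcl.mem_of_tendsto (hj a) ?_
    filter_upwards [eventually_ge_atTop n] with m hm
    exact hmem a n m hm
  have hkey : ∀ a b i, s i (j a) = j b → ∀ n, i ≤ n → a n = b n := by
    have aux : ∀ a b i, s i (j a) = j b → ∀ n, i ≤ n → a n = false → b n = true → False := by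
      intro a b i hab n hin ha hb
      obtain ⟨x, hx, hxa⟩ := hjmem a (n + 1)
      obtain ⟨y, hy, hyb⟩ := hjmem b (n + 1)
      rw [hGs, if_neg (by rw [ha]; simp)] at hxa
      rw [hGs, if_pos hb] at hyb
      refine hsep n (G a n) (hGmem a n) (G b n) (hGmem b n) i hin x hx y hy ?_
      rw [hxa, hab, ← hyb]
      rfl
    intro a b i hab n hin
    have hba : s i (j b) = j a := by rw [← hab, hinv]
    cases ha : a n with
    | false =>
      cases hb : b n with
      | false => rfl
      | true => exact (aux a b i hab n hin ha hb).elim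
    | true =>
      cases hb : b n with
      | false => exact (aux b a i hba n hin hb ha).elim
      | true => rfl
  refine ⟨j, ?_, ?_, ?_⟩
  · -- measurability
    have hm : ∀ n (f : (ℕ → Bool) → X), Measurable f → Measurable fun a => G a n (f a) := by
      intro n
      induction n with
      | zero => intro f hf; exact hf
      | succ n ih =>
        intro f hf
        have h1 : (fun a => G a (n + 1) (f a)) =
            fun a => if a n = true then G a n (h n (f a)) else G a n (f a) := by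
          funext a
          rw [hGs]
          by_cases ha : a n = true
          · rw [if_pos ha, if_pos ha]; rfl
          · rw [if_neg ha, if_neg ha]
        rw [h1]
        refine Measurable.ite ?_ (ih _ ((h n).continuous.measurable.comp hf)) (ih _ hf)
        have h2 : MeasurableSet ((fun a : ℕ → Bool => a n) ⁻¹' {true}) :=
          (measurable_pi_apply n) (measurableSet_singleton true)
        exact h2
    refine measurable_of_tendsto_metrizable (f := fun n a => G a n x0) (fun n => ?_) ?_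
    · exact hm n (fun _ => x0) measurable_const
    · rw [tendsto_pi_nhds]
      exact hj
  · intro a b hab
    funext n
    exact hkey a b 0 (by rw [hs0, hab]) n (Nat.zero_le n)
  · intro a b
    constructor
    · intro hab
      obtain ⟨i, hi⟩ := (hsE _ _).1 hab
      exact ⟨i, fun n hn => hkey a b i hi n hn⟩
    · rintro ⟨N, hN⟩
      have h1 : ∀ n, N ≤ n → ∀ x, G b n x = G b N ((G a N).symm (G a n x)) := by
        intro n hn
        induction n, hn using Nat.le_induction with
        | base => intro x; rw [Homeomorph.symm_apply_apply]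
        | succ n hn ih =>
          intro x
          rw [hGs, hGs, ← hN n hn]
          by_cases ha : a n = true
          · rw [if_pos ha, if_pos ha]
            exact ih (h n x)
          · rw [if_neg ha, if_neg ha]
            exact ih x
      have h2 : Tendsto (fun n => G b n x0) atTop (𝓝 (G b N ((G a N).symm (j a)))) := by
        have h3 : Tendsto (fun n => G b N ((G a N).symm (G a n x0))) atTop
            (𝓝 (G b N ((G a N).symm (j a)))) :=
          (((G b N).continuous.comp (G a N).symm.continuous).tendsto (j a)).comp (hj a)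
        refine h3.congr' ?_
        filter_upwards [eventually_ge_atTop N] with n hn
        exact (h1 n hn x0).symm
      have h3 : j b = G b N ((G a N).symm (j a)) := tendsto_nhds_unique (hj b) h2
      rw [h3]
      refine hE.trans (hE.symm ?_) (hGE b N _)
      have h4 := hGE a N ((G a N).symm (j a))
      rwa [Homeomorph.apply_symm_apply] at h4

end scheme

end GEaux

open GEaux

/-- JOB GE (Glimm-Effros / E_0 dichotomy for countable relations given by involutions) -/
theorem glimm_effros {X : Type} [MeasurableSpace X] [StandardBorelSpace X] (s : ℕ → X → X)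
    (hs : ∀ n, Measurable (s n)) (hinv : ∀ n x, s n (s n x) = x) (E : X → X → Prop)
    (hE : Equivalence E) (hsE : ∀ x y, E x y ↔ ∃ n, s n x = y)
    (hns : ¬ ∃ f : X → ℝ, Measurable f ∧ ∀ x y, E x y ↔ f x = f y) :
    ∃ j : (ℕ → Bool) → X, Measurable j ∧ Function.Injective j ∧
      ∀ a b, E (j a) (j b) ↔ ∃ N, ∀ n, N ≤ n → a n = b n := by
  classical
  -- add the identity
  let s' : ℕ → X → X := fun n => Nat.casesOn n id s
  have hs'0 : ∀ x, s' 0 x = x := fun x => rfl
  have hs's : ∀ n x, s' (n + 1) x = s n x := fun n x => rfl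
  have hs' : ∀ n, Measurable (s' n) := by
    intro n
    cases n with
    | zero => exact measurable_id
    | succ n => exact hs n
  have hinv' : ∀ n x, s' n (s' n x) = x := by
    intro n x
    cases n with
    | zero => rfl
    | succ n => exact hinv n x
  have hsE' : ∀ x y, E x y ↔ ∃ n, s' n x = y := by
    intro x y
    constructor
    · intro h
      obtain ⟨n, hn⟩ := (hsE x y).1 h
      exact ⟨n + 1, hn⟩
    · rintro ⟨n, hn⟩
      cases n with
      | zero =>
        have : x = y := hn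
        rw [this]
        exact hE.refl y
      | succ n => exact (hsE x y).2 ⟨n, hn⟩
  let _ := upgradeStandardBorel X
  obtain ⟨t, ht, hpol, hbor, hcont, -⟩ := Pool.Agent.H139R3.MF.exists_topology (X := X)
    (H := Unit) s' hs' (fun _ => ()) measurable_const
  clear_value s'
  let _ : TopologicalSpace X := t
  have := hpol
  have := hbor
  let _ := TopologicalSpace.upgradeIsCompletelyMetrizable X
  by_cases hrec : ∃ x0 : X, ∀ O : Set X, IsOpen O → x0 ∈ O → ∃ k, s' k x0 ∈ O ∧ s' k x0 ≠ x0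
  · obtain ⟨x0, hx0⟩ := hrec
    exact exists_embedding hE s' hcont hs'0 hinv' hsE' hx0
  · exfalso
    apply hns
    push Not at hrec
    obtain ⟨g, hg, hgE, hgE'⟩ := exists_selector s' hs' E hE hsE' hrec
    refine ⟨fun x => embeddingReal X (g x), (measurableEmbedding_embeddingReal X).measurable.comp hg,
      fun x y => ⟨fun h => congrArg (embeddingReal X) (hgE' x y h), fun h => ?_⟩⟩
    have h1 := (measurableEmbedding_embeddingReal X).injective h
    have h2 := hgE x
    rw [h1] at h2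
    exact hE.trans h2 (hE.symm (hgE y))

end Pool.Agent.TH286.CR
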