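import Pool.Agent.TH286.CR.Weak

set_option autoImplicit false

/-!
# The ladder graphs

Hubs at the points `(±1, 0), …, (±(D + 5), 0)`; for every type `x = 0, …, D` there are `2 s` vertices
on the vertical axis, `s` above and `s` below the origin, joined to the ten hubs `(±(x + 1), 0), …,
(±(x + 5), 0)`.
-/

namespace Pool.Agent.TH286.CR

open Pool.Agent.Helper770.Crossing Pool.Agent.Helper770.Exist
open Pool.Agent.Helper770.Straight (ori seg crossingNumber_le)
open H571R3 Finset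

/-- the vertices on the vertical axis: sign, type, copy -/
abbrev YY (D s : ℕ) : Type := Bool × Fin (D + 1) × Fin s

/-- the ladder graph -/
def lad (D s : ℕ) : SimpleGraph (Fin (2 * (D + 5)) ⊕ YY D s) where
  Adj v w := (∃ (h : Fin (2 * (D + 5))) (y : YY D s), v = Sum.inl h ∧ w = Sum.inr y ∧
      y.2.1.val ≤ h.val / 2 ∧ h.val / 2 < y.2.1.val + 5) ∨
    (∃ (h : Fin (2 * (D + 5))) (y : YY D s), w = Sum.inl h ∧ v = Sum.inr y ∧
      y.2.1.val ≤ h.val / 2 ∧ h.val / 2 < y.2.1.val + 5)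
  symm := ⟨fun _ _ h => h.symm⟩
  loopless := ⟨fun x h => by
    rcases h with ⟨h, k, h1, h2, -⟩ | ⟨h, k, h1, h2, -⟩ <;> rw [h1] at h2 <;>
      exact Sum.inl_ne_inr h2⟩

/-- signs -/
noncomputable def sg (b : Bool) : ℝ := if b then 1 else -1

lemma sg_sq (b : Bool) : sg b * sg b = 1 := by cases b <;> simp [sg]

lemma sg_ne {b b' : Bool} (h : b ≠ b') : sg b * sg b' = -1 := by
  cases b <;> cases b' <;> simp_all [sg]

lemma sg_inj {b b' : Bool} {m m' : ℕ} (h : sg b * ((m : ℝ) + 1) = sg b' * ((m' : ℝ) + 1)) :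
    b = b' ∧ m = m' := by
  have h1 : (0 : ℝ) ≤ m := Nat.cast_nonneg m
  have h2 : (0 : ℝ) ≤ m' := Nat.cast_nonneg m'
  cases b <;> cases b' <;> simp [sg] at h ⊢
  · exact_mod_cast h
  · linarith
  · linarith
  · exact_mod_cast h

variable {D s : ℕ}

/-- the side of a hub -/
def hb (h : Fin (2 * (D + 5))) : Bool := decide (h.val % 2 = 1)

/-- abscissa of a hub -/
noncomputable def hx (h : Fin (2 * (D + 5))) : ℝ := sg (hb h) * (((h.val / 2 : ℕ) : ℝ) + 1)

/-- ordinate of a vertex on the vertical axis -/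
noncomputable def cy (y : YY D s) : ℝ := sg y.1 * (((y.2.1.val * s + y.2.2.val : ℕ) : ℝ) + 1)

/-- the points of the drawing -/
noncomputable def pt (D s : ℕ) : Fin (2 * (D + 5)) ⊕ YY D s → ℂ
  | Sum.inl h => ⟨hx h, 0⟩
  | Sum.inr y => ⟨0, cy y⟩

lemma sg_ne_zero (b : Bool) : sg b ≠ 0 := by
  intro h
  have := sg_sq b
  rw [h] at this
  norm_num at this

lemma hx_ne (h : Fin (2 * (D + 5))) : hx h ≠ 0 :=
  mul_ne_zero (sg_ne_zero _) (by positivity)

lemma cy_ne (y : YY D s) : cy y ≠ 0 :=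
  mul_ne_zero (sg_ne_zero _) (by positivity)

lemma hx_inj {h h' : Fin (2 * (D + 5))} (e : hx h = hx h') : h = h' := by
  obtain ⟨h1, h2⟩ := sg_inj e
  apply Fin.ext
  unfold hb at h1
  have h3 : h.val % 2 = 1 ↔ h'.val % 2 = 1 := by
    by_cases hc : h.val % 2 = 1 <;> by_cases hc' : h'.val % 2 = 1 <;> simp_all
  omega

lemma code_inj {x x' i i' : ℕ} (hi : i < s) (hi' : i' < s) (h : x * s + i = x' * s + i') :
    x = x' ∧ i = i' := by
  have h1 : (x * s + i) / s = x := by
    rw [mul_comm, Nat.mul_add_div (by omega), Nat.div_eq_of_lt hi, add_zero]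
  have h2 : (x' * s + i') / s = x' := by
    rw [mul_comm, Nat.mul_add_div (by omega), Nat.div_eq_of_lt hi', add_zero]
  have h3 : x = x' := by rw [← h1, ← h2, h]
  subst h3
  exact ⟨rfl, by omega⟩

lemma cy_inj {y y' : YY D s} (e : cy y = cy y') : y = y' := by
  obtain ⟨h1, h2⟩ := sg_inj e
  obtain ⟨h3, h4⟩ := code_inj y.2.2.2 y'.2.2.2 h2
  exact Prod.ext h1 (Prod.ext (Fin.ext h3) (Fin.ext h4))

lemma ori1 (h h' : Fin (2 * (D + 5))) (y : YY D s) :
    ori (pt D s (Sum.inl h)) (pt D s (Sum.inr y)) (pt D s (Sum.inl h')) = cy y * (hx h - hx h') := by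
  simp only [ori, pt]; ring

lemma ori2 (h : Fin (2 * (D + 5))) (y y' : YY D s) :
    ori (pt D s (Sum.inl h)) (pt D s (Sum.inr y)) (pt D s (Sum.inr y')) = hx h * (cy y - cy y') := by
  simp only [ori, pt]; ring

lemma egen : EGen (lad D s) (pt D s) where
  inj := by
    rintro (h | y) (h' | y') e
    · have := congrArg Complex.re e
      rw [hx_inj (show hx h = hx h' from this)]
    · have := congrArg Complex.re e
      exact absurd (show hx h = 0 from this) (hx_ne h)
    · have := congrArg Complex.re e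
      exact absurd (show (0 : ℝ) = hx h' from this).symm (hx_ne h')
    · have := congrArg Complex.im e
      rw [cy_inj (show cy y = cy y' from this)]
  gen := by
    intro a b c hab hca hcb
    have key : ∀ (h : Fin (2 * (D + 5))) (y : YY D s) (c : Fin (2 * (D + 5)) ⊕ YY D s),
        c ≠ Sum.inl h → c ≠ Sum.inr y → ori (pt D s (Sum.inl h)) (pt D s (Sum.inr y)) (pt D s c) ≠ 0 := by
      rintro h y (h' | y') h1 h2
      · rw [ori1]
        refine mul_ne_zero (cy_ne y) (sub_ne_zero.2 fun e => h1 ?_)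
        rw [hx_inj e]
      · rw [ori2]
        refine mul_ne_zero (hx_ne h) (sub_ne_zero.2 fun e => h2 ?_)
        rw [cy_inj e]
    rcases hab with ⟨h, y, rfl, rfl, -⟩ | ⟨h, y, rfl, rfl, -⟩
    · exact key h y c hca hcb
    · rw [Pool.Agent.Helper770.Straight.ori_swap]
      exact neg_ne_zero.2 (key h y c hcb hca)

/-- the hub on the side `b` at distance `j + 1` -/
def hub (b : Bool) (j : ℕ) : Fin (2 * (D + 5)) :=
  ⟨(2 * j + b.toNat) % (2 * (D + 5)), Nat.mod_lt _ (by omega)⟩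

lemma hub_eq (h : Fin (2 * (D + 5))) : hub (hb h) (h.val / 2) = h := by
  apply Fin.ext
  unfold hub hb
  have h2 := h.2
  have h1 : (decide (h.val % 2 = 1)).toNat = h.val % 2 := by
    by_cases hc : h.val % 2 = 1
    · simp [hc]
    · simp [hc]; omega
  simp only [h1]
  rw [Nat.mod_eq_of_lt] <;> omega

/-- the crossing pair with given parameters -/
def ff (z : (Bool × Bool × Fin (D + 1)) × (Fin s × Fin s) × (Fin 5 × Fin 5 × Fin 5)) :
    Sym2 (Sym2 (Fin (2 * (D + 5)) ⊕ YY D s)) :=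
  s(s(Sum.inl (hub z.1.1 (z.1.2.2.val + z.2.2.1.val)), Sum.inr (z.1.2.1, z.1.2.2, z.2.1.1)),
    s(Sum.inl (hub z.1.1 (z.1.2.2.val + z.2.2.1.val + z.2.2.2.1.val)),
      Sum.inr (z.1.2.1, ⟨z.1.2.2.val - z.2.2.2.2.val, by omega⟩, z.2.1.2)))

/-- offsets inside one type -/
def Q1 : Finset (Fin 5 × Fin 5 × Fin 5) :=
  univ.filter fun w => w.2.2.val = 0 ∧ 1 ≤ w.2.1.val ∧ w.1.val + w.2.1.val ≤ 4

/-- offsets between two types -/
def Q2 : Finset (Fin 5 × Fin 5 × Fin 5) :=
  univ.filter fun w => 1 ≤ w.2.2.val ∧ 1 ≤ w.2.1.val ∧ w.1.val + w.2.1.val + w.2.2.val ≤ 4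

lemma card_Q1 : Q1.card = 10 := by decide +kernel
lemma card_Q2 : Q2.card = 10 := by decide +kernel

/-- pairs of copies -/
def PP (s : ℕ) : Finset (Fin s × Fin s) := univ.filter fun z => z.2 < z.1

lemma card_PP (s : ℕ) : 2 * (PP s).card ≤ s * s := by
  have h1 : (PP s).card ≤ (univ.filter fun z : Fin s × Fin s => z.1 < z.2).card := by
    apply card_le_card_of_injOn Prod.swap
    · intro z hz
      simp only [PP, coe_filter, mem_univ, true_and, Set.mem_ofPred_eq] at hz ⊢
      simpa using hz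
    · exact Prod.swap_injective.injOn
  have h2 : Disjoint (PP s) (univ.filter fun z : Fin s × Fin s => z.1 < z.2) := by
    rw [Finset.disjoint_left]
    intro z hz hz'
    simp only [PP, mem_filter, mem_univ, true_and] at hz hz'
    exact absurd hz (not_lt.2 hz'.le)
  have h3 := card_union_of_disjoint h2
  have h4 := card_le_univ (PP s ∪ univ.filter fun z : Fin s × Fin s => z.1 < z.2)
  rw [Fintype.card_prod, Fintype.card_fin] at h4
  omega

/-- all crossing pairs -/
noncomputable def SS (D s : ℕ) : Finset (Sym2 (Sym2 (Fin (2 * (D + 5)) ⊕ YY D s))) := by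
  classical
  exact (univ ×ˢ (PP s ×ˢ Q1)).image ff ∪ (univ ×ˢ (univ ×ˢ Q2)).image ff

lemma card_SS (D s : ℕ) : (SS D s).card ≤ 60 * (D + 1) * (s * s) := by
  classical
  unfold SS
  refine (card_union_le _ _).trans ?_
  refine (Nat.add_le_add card_image_le card_image_le).trans ?_
  simp only [card_product, card_univ, Fintype.card_prod, Fintype.card_bool, Fintype.card_fin,
    card_Q1, card_Q2]
  have h := card_PP s
  have h2 := Nat.mul_le_mul_left (20 * (D + 1)) h
  nlinarith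

lemma core (b u : Bool) (x x' : Fin (D + 1)) (i i' : Fin s) {j j' : ℕ} (h1 : x.val ≤ j)
    (h2 : j' < x'.val + 5) (hj : j < j') (hm : x'.val * s + i'.val < x.val * s + i.val) :
    s(s(Sum.inl (hub b j), Sum.inr ((u, x, i) : YY D s)),
      s(Sum.inl (hub b j'), Sum.inr ((u, x', i') : YY D s))) ∈ SS D s := by
  classical
  have hxx : x'.val ≤ x.val := by
    by_contra hc
    push Not at hc
    have h3 : (x.val + 1) * s ≤ x'.val * s := Nat.mul_le_mul_right s hc
    have h4 := i.2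
    rw [add_mul, one_mul] at h3
    omega
  have e1 : x.val + (j - x.val) = j := by omega
  have e2 : x.val + (j - x.val) + (j' - j) = j' := by omega
  have e3 : x.val - (x.val - x'.val) = x'.val := by omega
  have hmem : ff ((b, u, x), (i, i'), ((⟨j - x.val, by omega⟩ : Fin 5), (⟨j' - j, by omega⟩ : Fin 5),
      (⟨x.val - x'.val, by omega⟩ : Fin 5))) =
      s(s(Sum.inl (hub b j), Sum.inr ((u, x, i) : YY D s)),
        s(Sum.inl (hub b j'), Sum.inr ((u, x', i') : YY D s))) := by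
    unfold ff
    simp only [e2, e3]
    rw [e1]
  rw [← hmem]
  unfold SS
  rw [mem_union]
  by_cases hx : x.val = x'.val
  · left
    apply mem_image_of_mem
    simp only [mem_product, mem_univ, true_and, PP, Q1, mem_filter]
    refine ⟨?_, by omega, by omega, by omega⟩
    rw [Fin.lt_def]
    rw [hx] at hm
    omega
  · right
    apply mem_image_of_mem
    simp only [mem_product, mem_univ, true_and, Q2, mem_filter]
    refine ⟨by omega, by omega, by omega⟩

lemma quad {a a' c c' : ℝ} (h1 : c * (a - a') * (a * (c - c')) < 0)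
    (h2 : c' * (a' - a) * (a' * (c' - c)) < 0) : 0 < a * a' ∧ 0 < c * c' := by
  have h3 : 0 < (a * a') * (c * c') * ((a - a') * (c - c')) ^ 2 := by
    have := mul_pos_of_neg_of_neg h1 h2
    nlinarith
  have h4 : 0 < (a * a') * (c * c') := by
    by_contra hc
    push Not at hc
    have := mul_nonneg_of_nonpos_of_nonpos hc (by nlinarith [sq_nonneg ((a - a') * (c - c'))] :
      -(((a - a') * (c - c')) ^ 2) ≤ 0)
    linarith
  rcases lt_or_ge 0 (a * a') with h5 | h5
  · exact ⟨h5, (mul_pos_iff_of_pos_left h5).1 h4⟩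
  · exfalso
    have h6 : a * a' < 0 := lt_of_le_of_ne h5 (fun e => by rw [e, zero_mul] at h4; exact lt_irrefl _ h4)
    have h7 : c * c' < 0 := by
      by_contra hc
      push Not at hc
      have := mul_nonpos_of_nonpos_of_nonneg h5 hc
      linarith
    have h8 : 0 < a * (a - a') := by nlinarith [sq_nonneg a]
    have h9 : 0 < c * (c - c') := by nlinarith [sq_nonneg c]
    have := mul_pos h8 h9
    linarith

lemma side {b b' : Bool} {A A' : ℝ} (hA : 0 < A) (hA' : 0 < A') (h : 0 < sg b * A * (sg b' * A')) :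
    b = b' := by
  by_contra hc
  have h1 := sg_ne hc
  have h2 : sg b * A * (sg b' * A') = (sg b * sg b') * (A * A') := by ring
  rw [h2, h1] at h
  have := mul_pos hA hA'
  linarith

lemma normal (h h' : Fin (2 * (D + 5))) (y y' : YY D s)
    (a1 : y.2.1.val ≤ h.val / 2 ∧ h.val / 2 < y.2.1.val + 5)
    (a2 : y'.2.1.val ≤ h'.val / 2 ∧ h'.val / 2 < y'.2.1.val + 5)
    (c1 : ori (pt D s (Sum.inl h)) (pt D s (Sum.inr y)) (pt D s (Sum.inl h')) *
      ori (pt D s (Sum.inl h)) (pt D s (Sum.inr y)) (pt D s (Sum.inr y')) < 0)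
    (c2 : ori (pt D s (Sum.inl h')) (pt D s (Sum.inr y')) (pt D s (Sum.inl h)) *
      ori (pt D s (Sum.inl h')) (pt D s (Sum.inr y')) (pt D s (Sum.inr y)) < 0) :
    s(s(Sum.inl h, Sum.inr y), s(Sum.inl h', Sum.inr y')) ∈ SS D s := by
  rw [ori1, ori2] at c1 c2
  obtain ⟨q1, q2⟩ := quad c1 c2
  have hb1 : hb h = hb h' := side (by positivity) (by positivity) q1
  have hu : y.1 = y'.1 := side (by positivity) (by positivity) q2
  have hK : (((h.val / 2 : ℕ) : ℝ) - ((h'.val / 2 : ℕ) : ℝ)) *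
      (((y.2.1.val * s + y.2.2.val : ℕ) : ℝ) - ((y'.2.1.val * s + y'.2.2.val : ℕ) : ℝ)) < 0 := by
    unfold hx cy at c1
    rw [← hb1, ← hu] at c1
    have e : sg y.1 * (((y.2.1.val * s + y.2.2.val : ℕ) : ℝ) + 1) *
        (sg (hb h) * (((h.val / 2 : ℕ) : ℝ) + 1) - sg (hb h) * (((h'.val / 2 : ℕ) : ℝ) + 1)) *
        (sg (hb h) * (((h.val / 2 : ℕ) : ℝ) + 1) *
          (sg y.1 * (((y.2.1.val * s + y.2.2.val : ℕ) : ℝ) + 1) -
            sg y.1 * (((y'.2.1.val * s + y'.2.2.val : ℕ) : ℝ) + 1))) =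
        (sg y.1 * sg y.1) * (sg (hb h) * sg (hb h)) *
          (((((y.2.1.val * s + y.2.2.val : ℕ) : ℝ) + 1) * (((h.val / 2 : ℕ) : ℝ) + 1)) *
        ((((h.val / 2 : ℕ) : ℝ) - ((h'.val / 2 : ℕ) : ℝ)) *
      (((y.2.1.val * s + y.2.2.val : ℕ) : ℝ) - ((y'.2.1.val * s + y'.2.2.val : ℕ) : ℝ)))) := by
      ring
    rw [e, sg_sq, sg_sq, one_mul, one_mul] at c1
    by_contra hc
    push Not at hc
    have := mul_nonneg (show (0 : ℝ) ≤ (((y.2.1.val * s + y.2.2.val : ℕ) : ℝ) + 1) *
      (((h.val / 2 : ℕ) : ℝ) + 1) by positivity) hc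
    linarith
  obtain ⟨u, x, i⟩ := y
  obtain ⟨u', x', i'⟩ := y'
  simp only at hu hK a1 a2
  subst hu
  rw [← hub_eq h, ← hub_eq h', ← hb1]
  rcases mul_neg_iff.1 hK with ⟨h1, h2⟩ | ⟨h1, h2⟩
  · have h3 : h'.val / 2 < h.val / 2 := by
      have : ((h'.val / 2 : ℕ) : ℝ) < ((h.val / 2 : ℕ) : ℝ) := by linarith
      exact_mod_cast this
    have h4 : x.val * s + i.val < x'.val * s + i'.val := by
      have : ((x.val * s + i.val : ℕ) : ℝ) < ((x'.val * s + i'.val : ℕ) : ℝ) := by linarith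
      exact_mod_cast this
    rw [Sym2.eq_swap]
    exact core (hb h) u x' x i' i a2.1 a1.2 h3 h4
  · have h3 : h.val / 2 < h'.val / 2 := by
      have : ((h.val / 2 : ℕ) : ℝ) < ((h'.val / 2 : ℕ) : ℝ) := by linarith
      exact_mod_cast this
    have h4 : x'.val * s + i'.val < x.val * s + i.val := by
      have : ((x'.val * s + i'.val : ℕ) : ℝ) < ((x.val * s + i.val : ℕ) : ℝ) := by linarith
      exact_mod_cast this
    exact core (hb h) u x x' i i' a1.1 a2.2 h3 h4

lemma ori_prod_swap (a b c d : ℂ) : ori b a c * ori b a d = ori a b c * ori a b d := by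
  rw [Pool.Agent.Helper770.Straight.ori_swap a b c, Pool.Agent.Helper770.Straight.ori_swap a b d]
  ring

theorem cr_lad (D s : ℕ) : crossingNumber (lad D s) ≤ 60 * (D + 1) * (s * s) := by
  have key := ncard_le (G := lad D s) egen (SS D s) (by
    intro a b c d hab hcd n1 n2 n3 n4 n5 n6 c1 c2
    rcases hab with ⟨h, y, rfl, rfl, a1⟩ | ⟨h, y, rfl, rfl, a1⟩ <;>
    rcases hcd with ⟨h', y', rfl, rfl, a2⟩ | ⟨h', y', rfl, rfl, a2⟩
    · exact normal h h' y y' a1 a2 c1 c2
    · rw [Sym2.eq_swap (a := Sum.inr y')]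
      refine normal h h' y y' a1 a2 ?_ ?_
      · rw [mul_comm]; exact c1
      · rw [ori_prod_swap] at c2; exact c2
    · rw [Sym2.eq_swap (a := Sum.inr y)]
      refine normal h h' y y' a1 a2 ?_ ?_
      · rw [ori_prod_swap] at c1; exact c1
      · rw [mul_comm]; exact c2
    · rw [Sym2.eq_swap (a := Sum.inr y), Sym2.eq_swap (a := Sum.inr y')]
      refine normal h h' y y' a1 a2 ?_ ?_
      · rw [ori_prod_swap, mul_comm] at c1; exact c1
      · rw [ori_prod_swap, mul_comm] at c2; exact c2)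
  exact (crossingNumber_le _ key.1).trans (key.2.trans (card_SS D s))

end Pool.Agent.TH286.CR
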