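import Pool.Agent.TH286.CR.Ladder

set_option autoImplicit false

/-!
# The optimal constant comparing biplanar and ordinary crossing numbers is at least 3/20
-/

namespace Pool.Agent.TH286.CR

open Pool.Agent.Helper770.Crossing Pool.Agent.Helper770.Exist
open H571R3 Finset

/-- lower bound for two subgraphs covering a bipartite graph whose right vertices have degree at
least `d` -/
theorem two_planes' {p : ℕ} (hp : 3 ≤ p) {Y : Type} [Fintype Y] [DecidableEq Y]
    (G G₁ G₂ : SimpleGraph (Fin p ⊕ Y)) [DecidableRel G.Adj] (h : G₁ ⊔ G₂ = G)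
    (hG : ∀ y y' : Y, ¬ G.Adj (Sum.inr y) (Sum.inr y')) {d : ℕ}
    (hd : ∀ y : Y, d ≤ (univ.filter fun a : Fin p => G.Adj (Sum.inl a) (Sum.inr y)).card)
    (k : ℕ) :
    k * ((d - 4) * Fintype.card Y) ≤
      crossingNumber G₁ + crossingNumber G₂ + 2 * (k * (k + 1) * (p - 2)) := by
  classical
  have hb : ∀ G' : SimpleGraph (Fin p ⊕ Y), G' ≤ G →
      ∀ y y' : Y, ¬ G'.Adj (Sum.inr y) (Sum.inr y') :=
    fun G' hG' y y' hadj => hG y y' (hG' hadj)
  have h1 := plane hp G₁ (hb G₁ (h ▸ le_sup_left)) k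
  have h2 := plane hp G₂ (hb G₂ (h ▸ le_sup_right)) k
  have hdeg : ∀ y : Y, d - 4 ≤ ((univ.filter (fun a : Fin p => G₁.Adj (Sum.inl a) (Sum.inr y))).card - 2)
      + ((univ.filter (fun a : Fin p => G₂.Adj (Sum.inl a) (Sum.inr y))).card - 2) := by
    intro y
    have hu : (univ.filter (fun a : Fin p => G.Adj (Sum.inl a) (Sum.inr y))) ⊆
        (univ.filter (fun a : Fin p => G₁.Adj (Sum.inl a) (Sum.inr y))) ∪
        (univ.filter (fun a : Fin p => G₂.Adj (Sum.inl a) (Sum.inr y))) := by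
      intro a ha
      have : (G₁ ⊔ G₂).Adj (Sum.inl a) (Sum.inr y) := by
        rw [h]
        exact (mem_filter.1 ha).2
      rcases this with h' | h'
      · exact mem_union_left _ (mem_filter.mpr ⟨mem_univ _, h'⟩)
      · exact mem_union_right _ (mem_filter.mpr ⟨mem_univ _, h'⟩)
    have hc := (card_le_card hu).trans (card_union_le _ _)
    have := hd y
    omega
  have hsum : (d - 4) * Fintype.card Y ≤
      (∑ y : Y, ((univ.filter (fun a : Fin p => G₁.Adj (Sum.inl a) (Sum.inr y))).card - 2))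
      + (∑ y : Y, ((univ.filter (fun a : Fin p => G₂.Adj (Sum.inl a) (Sum.inr y))).card - 2)) := by
    rw [← sum_add_distrib]
    calc (d - 4) * Fintype.card Y = ∑ _y : Y, (d - 4) := by simp [mul_comm]
      _ ≤ _ := sum_le_sum (fun y _ => hdeg y)
  have := Nat.mul_le_mul_left k hsum
  rw [Nat.mul_add] at this
  omega

theorem deg_lad (D s : ℕ) [DecidableRel (lad D s).Adj] (y : YY D s) :
    10 ≤ (univ.filter fun a : Fin (2 * (D + 5)) =>
      (lad D s).Adj (Sum.inl a) (Sum.inr y)).card := by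
  have h0 := y.2.1.2
  have h1 : (univ : Finset (Fin 10)).card ≤ (univ.filter fun a : Fin (2 * (D + 5)) =>
      (lad D s).Adj (Sum.inl a) (Sum.inr y)).card := by
    apply card_le_card_of_injOn
      (fun r : Fin 10 => (⟨2 * y.2.1.val + r.val, by omega⟩ : Fin (2 * (D + 5))))
    · intro r _
      simp only [coe_filter, mem_univ, true_and, Set.mem_ofPred_eq]
      left
      refine ⟨_, y, rfl, rfl, ?_, ?_⟩
      · simp only; omega
      · simp only; omega
    · intro r _ r' _ hrr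
      simp only [Fin.mk.injEq] at hrr
      exact Fin.ext (by omega)
  simpa using h1

theorem lower_lad (D s k : ℕ) :
    k * (6 * (2 * ((D + 1) * s))) ≤ biplanarCrossingNumber (lad D s) +
      2 * (k * (k + 1) * (2 * D + 8)) := by
  classical
  obtain ⟨G₁, G₂, h, -, he⟩ := biplanar_attained (lad D s)
  have h1 := two_planes' (p := 2 * (D + 5)) (by omega) (lad D s) G₁ G₂ h (by
    rintro y y' (⟨h, y, h1, -⟩ | ⟨h, y, h1, -⟩)
    · exact Sum.inr_ne_inl h1
    · exact Sum.inr_ne_inl h1) (d := 10) (fun y => deg_lad D s y) k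
  rw [← he] at h1
  have e1 : Fintype.card (YY D s) = 2 * ((D + 1) * s) := by
    simp [YY, Fintype.card_prod]
  rw [e1] at h1
  have e2 : 2 * (D + 5) - 2 = 2 * D + 8 := by omega
  rw [e2] at h1
  exact h1

/-- the two estimates at `s = 2 (D + 4) t` -/
theorem both (D t : ℕ) :
    36 * ((D : ℝ) + 1) ^ 2 * (D + 4) * t ^ 2 - 12 * ((D : ℝ) + 1) * (D + 4) * t ≤
      (biplanarCrossingNumber (lad D (2 * (D + 4) * t)) : ℝ) ∧
    (crossingNumber (lad D (2 * (D + 4) * t)) : ℝ) ≤
      240 * ((D : ℝ) + 1) * (D + 4) ^ 2 * t ^ 2 := by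
  constructor
  · have h := lower_lad D (2 * (D + 4) * t) (3 * (D + 1) * t)
    have h' : (((3 * (D + 1) * t) * (6 * (2 * ((D + 1) * (2 * (D + 4) * t)))) : ℕ) : ℝ) ≤
        ((biplanarCrossingNumber (lad D (2 * (D + 4) * t)) +
          2 * ((3 * (D + 1) * t) * ((3 * (D + 1) * t) + 1) * (2 * D + 8)) : ℕ) : ℝ) := by
      exact_mod_cast h
    push_cast at h'
    nlinarith
  · have h := cr_lad D (2 * (D + 4) * t)
    have h' : ((crossingNumber (lad D (2 * (D + 4) * t)) : ℕ) : ℝ) ≤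
        ((60 * (D + 1) * (2 * (D + 4) * t * (2 * (D + 4) * t)) : ℕ) : ℝ) := by
      exact_mod_cast h
    push_cast at h'
    nlinarith

/-- the constant is at least `3 / 20 (D + 1) / (D + 4)` -/
theorem main_D (D : ℕ) (c : ℝ) (h : ∀ (V : Type) [Fintype V] (G : SimpleGraph V),
    (biplanarCrossingNumber G : ℝ) ≤ c * crossingNumber G) :
    3 * ((D : ℝ) + 1) ≤ 20 * c * (D + 4) := by
  by_contra hc
  push Not at hc
  have hD : (0 : ℝ) ≤ D := Nat.cast_nonneg D
  set m : ℝ := max c 0 with hm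
  have hm0 : 0 ≤ m := le_max_right _ _
  have hm1 : 20 * m * (D + 4) < 3 * ((D : ℝ) + 1) := by
    rcases max_cases c 0 with ⟨h1, -⟩ | ⟨h1, -⟩
    · rw [hm, h1]; exact hc
    · rw [hm, h1]; linarith
  have key : ∀ t : ℕ, 36 * ((D : ℝ) + 1) ^ 2 * (D + 4) * t ^ 2 -
      12 * ((D : ℝ) + 1) * (D + 4) * t ≤ m * (240 * ((D : ℝ) + 1) * (D + 4) ^ 2 * t ^ 2) := by
    intro t
    obtain ⟨h1, h3⟩ := both D t
    have h2 := h _ (lad D (2 * (D + 4) * t))
    have h4 : (0 : ℝ) ≤ crossingNumber (lad D (2 * (D + 4) * t)) := Nat.cast_nonneg _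
    have h5 : c * (crossingNumber (lad D (2 * (D + 4) * t)) : ℝ) ≤
        m * (crossingNumber (lad D (2 * (D + 4) * t)) : ℝ) :=
      mul_le_mul_of_nonneg_right (le_max_left _ _) h4
    have h6 := mul_le_mul_of_nonneg_left h3 hm0
    linarith
  -- divide by 12 (D + 1) (D + 4) t
  have hpos : 0 < 3 * ((D : ℝ) + 1) - 20 * m * (D + 4) := by linarith
  obtain ⟨t, ht⟩ := exists_nat_gt (1 / (3 * ((D : ℝ) + 1) - 20 * m * (D + 4)))
  have ht0 : 0 < (t : ℝ) := lt_of_le_of_lt (by positivity) ht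
  rw [div_lt_iff₀ hpos] at ht
  have h1 := key t
  have hp : 0 < 12 * ((D : ℝ) + 1) * (D + 4) * t := by positivity
  have h2 : 12 * ((D : ℝ) + 1) * (D + 4) * t * (t * (3 * ((D : ℝ) + 1) - 20 * m * (D + 4))) ≤
      12 * ((D : ℝ) + 1) * (D + 4) * t * 1 := by nlinarith
  have h3 := le_of_mul_le_mul_left h2 hp
  linarith

/-- **Main theorem** -/
theorem main3 (c : ℝ) (h : ∀ (V : Type) [Fintype V] (G : SimpleGraph V),
    (biplanarCrossingNumber G : ℝ) ≤ c * crossingNumber G) : 3 / 20 ≤ c := by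
  by_contra hc
  push Not at hc
  obtain ⟨D, hD⟩ := exists_nat_gt ((80 * c - 3) / (3 - 20 * c))
  have hpos : 0 < 3 - 20 * c := by linarith
  rw [div_lt_iff₀ hpos] at hD
  have h1 := main_D D c h
  nlinarith

end Pool.Agent.TH286.CR
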